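import Pool.Agent.SOR.Stmts2

/-!
# Squad SOR, row TWE: `12 τ(a)` for a set with an action of `B₄`
-/

open scoped BigOperators

noncomputable section

namespace Pool.Agent.SOR.H27

open Pool.Agent.SOR

section one

variable {Γ Y : Type} [Group Γ] {R : Subring ℚ} {i : Γ →* Equiv.Perm Y} {ρ : Γ → Y → ℚ}

theorem cr_one (h : Cr R i ρ) (y : Y) : ρ 1 y ∈ R := by
  have h1 := h 1 1 y
  rw [one_mul, map_one, Equiv.Perm.coe_one, id, sub_self, zero_sub] at h1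
  simpa using R.neg_mem h1

theorem cr_inv (h : Cr R i ρ) (g : Γ) (y : Y) : ρ g (i g⁻¹ y) + ρ g⁻¹ y ∈ R := by
  have h1 := h g g⁻¹ y
  rw [mul_inv_cancel] at h1
  have h2 := R.sub_mem (cr_one h y) h1
  have e : ρ 1 y - (ρ 1 y - ρ g (i g⁻¹ y) - ρ g⁻¹ y) = ρ g (i g⁻¹ y) + ρ g⁻¹ y := by ring
  rwa [e] at h2

theorem cr_pow (h : Cr R i ρ) (c : Γ) (n : ℕ) (y : Y) :
    ρ (c ^ n) y - ∑ k ∈ Finset.range n, ρ c (((i c) ^ k) y) ∈ R := by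
  induction n with
  | zero =>
    rw [pow_zero, Finset.sum_range_zero, sub_zero]
    exact cr_one h y
  | succ n ih =>
    rw [Finset.sum_range_succ, pow_succ']
    have h1 := h c (c ^ n) y
    rw [map_pow] at h1
    have e : ρ (c * c ^ n) y - (∑ k ∈ Finset.range n, ρ c (((i c) ^ k) y) +
        ρ c (((i c) ^ n) y)) = (ρ (c * c ^ n) y - ρ c (((i c) ^ n) y) - ρ (c ^ n) y) +
        (ρ (c ^ n) y - ∑ k ∈ Finset.range n, ρ c (((i c) ^ k) y)) := by ring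
    rw [e]
    exact R.add_mem h1 ih

theorem cr3 (h : Cr R i ρ) (u v w : Γ) (y : Y) :
    ρ (u * v * w) y - ρ u (i v (i w y)) - ρ v (i w y) - ρ w y ∈ R := by
  have h1 := h (u * v) w y
  have h2 := h u v (i w y)
  have e : ρ (u * v * w) y - ρ u (i v (i w y)) - ρ v (i w y) - ρ w y =
    (ρ (u * v * w) y - ρ (u * v) (i w y) - ρ w y) +
      (ρ (u * v) (i w y) - ρ u (i v (i w y)) - ρ v (i w y)) := by ring
  rw [e]
  exact R.add_mem h1 h2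

/-- the functions invariant under `g` -/
def stb (i : Γ →* Equiv.Perm Y) (κ : Y → ℚ) : Subgroup Γ where
  carrier := {g | ∀ y, κ (i g y) = κ y}
  mul_mem' := by
    intro x z hx hz y
    rw [map_mul, Equiv.Perm.mul_apply, hx, hz]
  one_mem' := by
    intro y
    rw [map_one, Equiv.Perm.coe_one, id]
  inv_mem' := by
    intro x hx y
    have h1 := hx (i x⁻¹ y)
    rw [← Equiv.Perm.mul_apply, ← map_mul, mul_inv_cancel, map_one, Equiv.Perm.coe_one, id] at h1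
    exact h1.symm

end one

section bd

variable {Γ Y : Type} [Group Γ] (D : Bd Γ)

theorem j_A : D.j lA = D.A := by simp [Bd.j, lA]

theorem j_B : D.j lB = D.B := by simp [Bd.j, lB]

theorem j_C : D.j lC = D.C := by
  unfold lC Bd.C
  simp only [map_mul, map_inv, j_A, j_B]

theorem T_eq : D.T = D.C * D.Ts := D.r6

/-- the square of the half twist -/
theorem cube_eq : (D.a * D.b) ^ 3 = (D.a * D.b * D.a) * (D.a * D.b * D.a) := by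
  calc (D.a * D.b) ^ 3 = (D.a * D.b * D.a) * (D.b * D.a * D.b) := by
        simp only [pow_succ, pow_zero, one_mul, mul_assoc]
    _ = _ := by rw [D.r1]

theorem comm_a : D.a * D.T = D.T * D.a := by
  obtain ⟨x, hx⟩ : ∃ x, x = D.a * D.b * D.a := ⟨_, rfl⟩
  have h1 : D.a * x = x * D.b := by
    calc D.a * x = D.a * (D.b * D.a * D.b) := by rw [hx, D.r1]
      _ = D.a * D.b * D.a * D.b := by simp only [mul_assoc]
      _ = x * D.b := by rw [hx]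
  have h2 : D.b * x = x * D.a := by
    calc D.b * x = D.b * (D.a * D.b * D.a) := by rw [hx]
      _ = D.b * D.a * D.b * D.a := by simp only [mul_assoc]
      _ = x * D.a := by rw [hx, D.r1]
  have h3 : D.T = x * x * (x * x) := by
    unfold Bd.T
    have e : (D.a * D.b) ^ 6 = (D.a * D.b) ^ 3 * (D.a * D.b) ^ 3 := by
      rw [← pow_add]
    rw [e, cube_eq, hx]
  have h4 : D.a * (x * x) = x * x * D.a := by
    rw [← mul_assoc, h1, mul_assoc, h2, ← mul_assoc]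
  rw [h3, ← mul_assoc, h4, mul_assoc, h4, ← mul_assoc]

theorem comm_b : D.b * D.T = D.T * D.b := by
  obtain ⟨x, hx⟩ : ∃ x, x = D.a * D.b * D.a := ⟨_, rfl⟩
  have h1 : D.a * x = x * D.b := by
    calc D.a * x = D.a * (D.b * D.a * D.b) := by rw [hx, D.r1]
      _ = D.a * D.b * D.a * D.b := by simp only [mul_assoc]
      _ = x * D.b := by rw [hx]
  have h2 : D.b * x = x * D.a := by
    calc D.b * x = D.b * (D.a * D.b * D.a) := by rw [hx]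
      _ = D.b * D.a * D.b * D.a := by simp only [mul_assoc]
      _ = x * D.a := by rw [hx, D.r1]
  have h3 : D.T = x * x * (x * x) := by
    unfold Bd.T
    have e : (D.a * D.b) ^ 6 = (D.a * D.b) ^ 3 * (D.a * D.b) ^ 3 := by
      rw [← pow_add]
    rw [e, cube_eq, hx]
  have h4 : D.b * (x * x) = x * x * D.b := by
    rw [← mul_assoc, h2, mul_assoc, h1, ← mul_assoc]
  rw [h3, ← mul_assoc, h4, mul_assoc, h4, ← mul_assoc]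

theorem act_a (w : Fr) : D.a * D.j w = D.j (pa w) * D.a := by
  have h : (MulAut.conj D.a).toMonoidHom.comp D.j = D.j.comp pa.toMonoidHom := by
    refine hom_ext ?_ ?_
    · change D.a * D.j lA * D.a⁻¹ = D.j (fa lA)
      rw [fa_A, j_A, D.r2, mul_inv_cancel_right]
    · change D.a * D.j lB * D.a⁻¹ = D.j (fa lB)
      rw [fa_B, map_mul, j_A, j_B, D.r3, mul_inv_cancel_right]
  have h1 := DFunLike.congr_fun h w
  change D.a * D.j w * D.a⁻¹ = D.j (pa w) at h1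
  rw [← h1, inv_mul_cancel_right]

theorem act_b (w : Fr) : D.b * D.j w = D.j (pb w) * D.b := by
  have h : (MulAut.conj D.b).toMonoidHom.comp D.j = D.j.comp pb.toMonoidHom := by
    refine hom_ext ?_ ?_
    · change D.b * D.j lA * D.b⁻¹ = D.j (fb lA)
      rw [fb_A, map_inv, j_A, j_B, D.r4, mul_inv_cancel_right]
    · change D.b * D.j lB * D.b⁻¹ = D.j (fb lB)
      rw [fb_B, map_mul, map_mul, j_A, j_B, D.r5, mul_inv_cancel_right]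
  have h1 := DFunLike.congr_fun h w
  change D.b * D.j w * D.b⁻¹ = D.j (pb w) at h1
  rw [← h1, inv_mul_cancel_right]

end bd

section side

variable {Γ Y : Type} [Group Γ] {R : Subring ℚ} (D : Bd Γ) {i : Γ →* Equiv.Perm Y}
  {ρ : Γ → Y → ℚ} {r : ℚ} {κ : Y → ℚ} {x : Fr → Y → ℚ}

theorem iT (hTs : i D.Ts = 1) : i D.T = i D.C := by
  rw [T_eq, map_mul, hTs, mul_one]

theorem kT (ka : ∀ y, κ (i D.a y) = κ y) (kb : ∀ y, κ (i D.b y) = κ y) : D.T ∈ stb i κ :=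
  Subgroup.pow_mem _ (Subgroup.mul_mem _ (show D.a ∈ stb i κ from ka)
    (show D.b ∈ stb i κ from kb)) 6

theorem x_eq (lft : LftStmt) (hρ : Cr R i ρ) (hx : Cx (i.comp D.j) x)
    (xA : ∀ y, x lA y - ρ D.A y ∈ R) (xB : ∀ y, x lB y - ρ D.B y ∈ R) (w : Fr) (y : Y) :
    x w y - ρ (D.j w) y ∈ R := by
  refine (lft Y (i.comp D.j)).2.2 R x (fun w y => ρ (D.j w) y) ?_ ?_ ?_ ?_ w y
  · intro g h z
    rw [hx g h z]
    have e : x g ((i.comp D.j) h z) + x h z - x g ((i.comp D.j) h z) - x h z = 0 := by ring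
    rw [e]
    exact R.zero_mem
  · intro g h z
    have h1 := hρ (D.j g) (D.j h) z
    rw [← map_mul] at h1
    exact h1
  · intro z
    rw [j_A]
    exact xA z
  · intro z
    rw [j_B]
    exact xB z

theorem tr_gen (hρ : Cr R i ρ) (hxe : ∀ w y, x w y - ρ (D.j w) y ∈ R) (s : Γ) (φ : MulAut Fr)
    (act : ∀ w, s * D.j w = D.j (φ w) * s) (g : Y → ℚ) (hg : ∀ y, g y - ρ s⁻¹ y ∈ R)
    (w : Fr) (y : Y) : tw φ (i s) x w y - x w y - dl (i.comp D.j) g w y ∈ R := by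
  obtain ⟨z, hz⟩ : ∃ z, z = i s⁻¹ y := ⟨_, rfl⟩
  have hsz : i s z = y := by
    rw [hz, ← Equiv.Perm.mul_apply, ← map_mul, mul_inv_cancel, map_one, Equiv.Perm.coe_one, id]
  have hj : D.j (φ⁻¹ w) = s⁻¹ * D.j w * s := by
    have h1 := act (φ⁻¹ w)
    have h2 : φ (φ⁻¹ w) = w := by
      rw [← MulAut.mul_apply, mul_inv_cancel, MulAut.one_apply]
    rw [h2] at h1
    rw [mul_assoc, ← h1, inv_mul_cancel_left]
  have h1 := hxe (φ⁻¹ w) z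
  have h2 := cr3 hρ s⁻¹ (D.j w) s z
  rw [← hj, hsz] at h2
  have h3 := hxe w y
  have h4 := hg (i (D.j w) y)
  have h5 := hg y
  have h6 := cr_inv hρ s y
  rw [← hz] at h6
  have e : tw φ (i s) x w y - x w y - dl (i.comp D.j) g w y =
      (x (φ⁻¹ w) z - ρ (D.j (φ⁻¹ w)) z) +
      (ρ (D.j (φ⁻¹ w)) z - ρ s⁻¹ (i (D.j w) y) - ρ (D.j w) y - ρ s z) -
      (x w y - ρ (D.j w) y) - (g (i (D.j w) y) - ρ s⁻¹ (i (D.j w) y)) + (g y - ρ s⁻¹ y) +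
      (ρ s z + ρ s⁻¹ y) := by
    have e1 : tw φ (i s) x w y = x (φ⁻¹ w) z := by
      unfold tw
      rw [hz, map_inv]
    have e2 : dl (i.comp D.j) g w y = g (i (D.j w) y) - g y := rfl
    rw [e1, e2]
    ring
  rw [e]
  exact R.add_mem (R.add_mem (R.sub_mem (R.sub_mem (R.add_mem h1 h2) h3) h4) h5) h6

theorem c_gen (hTs : i D.Ts = 1) (hρ : Cr R i ρ) (hκ : ∀ y, ρ D.T y - κ y ∈ R) (s : Γ)
    (hs : s ∈ stb i κ) (hc : s * D.T = D.T * s) (y : Y) :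
    ρ s⁻¹ (i D.C y) - ρ s⁻¹ y ∈ R := by
  rw [← iT D hTs]
  have h1 := hρ s⁻¹ D.T y
  have h2 := hρ D.T s⁻¹ y
  have hc' : s⁻¹ * D.T = D.T * s⁻¹ := by
    rw [inv_mul_eq_iff_eq_mul, ← mul_assoc, hc, mul_inv_cancel_right]
  rw [hc'] at h1
  have h3 := hκ y
  have h4 := hκ (i s⁻¹ y)
  have h5 : κ (i s⁻¹ y) = κ y := (Subgroup.inv_mem _ hs) y
  rw [h5] at h4
  have e : ρ s⁻¹ (i D.T y) - ρ s⁻¹ y = (ρ (D.T * s⁻¹) y - ρ D.T (i s⁻¹ y) - ρ s⁻¹ y) -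
      (ρ (D.T * s⁻¹) y - ρ s⁻¹ (i D.T y) - ρ D.T y) - (ρ D.T y - κ y) +
      (ρ D.T (i s⁻¹ y) - κ y) := by ring
  rw [e]
  exact R.add_mem (R.sub_mem (R.sub_mem h2 h1) h3) h4

theorem c_gen' (hTs : i D.Ts = 1) (hρ : Cr R i ρ) (hκ : ∀ y, ρ D.T y - κ y ∈ R) (s : Γ)
    (hs : s ∈ stb i κ) (hc : s * D.T = D.T * s) (g : Y → ℚ) (hg : ∀ y, g y - ρ s⁻¹ y ∈ R)
    (y : Y) : g (i D.C y) - g y ∈ R := by
  have h1 := c_gen D hTs hρ hκ s hs hc y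
  have h2 := hg (i D.C y)
  have h3 := hg y
  have e : g (i D.C y) - g y = (g (i D.C y) - ρ s⁻¹ (i D.C y)) +
      (ρ s⁻¹ (i D.C y) - ρ s⁻¹ y) - (g y - ρ s⁻¹ y) := by ring
  rw [e]
  exact R.sub_mem (R.add_mem h2 h1) h3

theorem x_C (hTs : i D.Ts = 1) (hρ : Cr R i ρ) (hr : ∀ y, ρ D.Ts y - r ∈ R)
    (hκ : ∀ y, ρ D.T y - κ y ∈ R) (hxe : ∀ w y, x w y - ρ (D.j w) y ∈ R) (y : Y) :
    x lC y - (κ y - r) ∈ R := by
  have h1 := hxe lC y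
  rw [j_C] at h1
  have h2 := hρ D.C D.Ts y
  rw [hTs, Equiv.Perm.coe_one, id, ← T_eq] at h2
  have h3 := hκ y
  have h4 := hr y
  have e : x lC y - (κ y - r) = (x lC y - ρ D.C y) - (ρ D.T y - ρ D.C y - ρ D.Ts y) +
      (ρ D.T y - κ y) - (ρ D.Ts y - r) := by ring
  rw [e]
  exact R.sub_mem (R.add_mem (R.sub_mem h1 h2) h3) h4

theorem braid (hρ : Cr R i ρ) (ga gb : Y → ℚ) (hga : ∀ y, ga y - ρ D.a⁻¹ y ∈ R)
    (hgb : ∀ y, gb y - ρ D.b⁻¹ y ∈ R) (y : Y) :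
    (ga y + gb ((i D.a)⁻¹ y) + ga ((i D.a * i D.b)⁻¹ y)) -
      (gb y + ga ((i D.b)⁻¹ y) + gb ((i D.b * i D.a)⁻¹ y)) ∈ R := by
  rw [mul_inv_rev, mul_inv_rev, Equiv.Perm.mul_apply, Equiv.Perm.mul_apply]
  simp only [← map_inv]
  have h1 := cr3 hρ D.a⁻¹ D.b⁻¹ D.a⁻¹ y
  have h2 := cr3 hρ D.b⁻¹ D.a⁻¹ D.b⁻¹ y
  have e0 : D.b⁻¹ * D.a⁻¹ * D.b⁻¹ = D.a⁻¹ * D.b⁻¹ * D.a⁻¹ := by
    have h3 : (D.b * D.a * D.b)⁻¹ = (D.a * D.b * D.a)⁻¹ := by rw [D.r1]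
    simp only [mul_inv_rev] at h3
    rw [mul_assoc, mul_assoc]
    exact h3
  rw [e0] at h2
  have a1 := hga y
  have a2 := hgb (i D.a⁻¹ y)
  have a3 := hga (i D.b⁻¹ (i D.a⁻¹ y))
  have b1 := hgb y
  have b2 := hga (i D.b⁻¹ y)
  have b3 := hgb (i D.a⁻¹ (i D.b⁻¹ y))
  have e : (ga y + gb (i D.a⁻¹ y) + ga (i D.b⁻¹ (i D.a⁻¹ y))) -
      (gb y + ga (i D.b⁻¹ y) + gb (i D.a⁻¹ (i D.b⁻¹ y))) =
      (ga y - ρ D.a⁻¹ y) + (gb (i D.a⁻¹ y) - ρ D.b⁻¹ (i D.a⁻¹ y)) +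
      (ga (i D.b⁻¹ (i D.a⁻¹ y)) - ρ D.a⁻¹ (i D.b⁻¹ (i D.a⁻¹ y))) -
      (gb y - ρ D.b⁻¹ y) - (ga (i D.b⁻¹ y) - ρ D.a⁻¹ (i D.b⁻¹ y)) -
      (gb (i D.a⁻¹ (i D.b⁻¹ y)) - ρ D.b⁻¹ (i D.a⁻¹ (i D.b⁻¹ y))) -
      (ρ (D.a⁻¹ * D.b⁻¹ * D.a⁻¹) y - ρ D.a⁻¹ (i D.b⁻¹ (i D.a⁻¹ y)) - ρ D.b⁻¹ (i D.a⁻¹ y) -
        ρ D.a⁻¹ y) +
      (ρ (D.a⁻¹ * D.b⁻¹ * D.a⁻¹) y - ρ D.b⁻¹ (i D.a⁻¹ (i D.b⁻¹ y)) - ρ D.a⁻¹ (i D.b⁻¹ y) -
        ρ D.b⁻¹ y) := by ring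
  rw [e]
  exact R.add_mem (R.sub_mem (R.sub_mem (R.sub_mem (R.sub_mem (R.add_mem (R.add_mem a1 a2) a3)
    b1) b2) b3) h1) h2

theorem power (hρ : Cr R i ρ) (hκ : ∀ y, ρ D.T y - κ y ∈ R) (hT : D.T ∈ stb i κ)
    (ga gb : Y → ℚ) (hga : ∀ y, ga y - ρ D.a⁻¹ y ∈ R) (hgb : ∀ y, gb y - ρ D.b⁻¹ y ∈ R)
    (y : Y) :
    (∑ k ∈ Finset.range 6, (ga (((i D.a * i D.b)⁻¹ ^ k) y) +
      gb ((i D.a)⁻¹ (((i D.a * i D.b)⁻¹ ^ k) y)))) + (κ y - r + r) ∈ R := by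
  obtain ⟨c, hc⟩ : ∃ c, c = (D.a * D.b)⁻¹ := ⟨_, rfl⟩
  have hic : (i D.a * i D.b)⁻¹ = i c := by rw [hc, map_inv, map_mul]
  have hcT : c ^ 6 = D.T⁻¹ := by
    rw [hc, inv_pow]
    rfl
  rw [hic]
  have h1 : ∀ z, ga z + gb ((i D.a)⁻¹ z) - ρ c z ∈ R := by
    intro z
    have h2 := hρ D.b⁻¹ D.a⁻¹ z
    have e0 : D.b⁻¹ * D.a⁻¹ = c := by rw [hc, mul_inv_rev]
    rw [e0] at h2
    have h3 := hga z
    have h4 := hgb (i D.a⁻¹ z)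
    rw [← map_inv]
    have e : ga z + gb (i D.a⁻¹ z) - ρ c z = (ga z - ρ D.a⁻¹ z) +
        (gb (i D.a⁻¹ z) - ρ D.b⁻¹ (i D.a⁻¹ z)) -
        (ρ c z - ρ D.b⁻¹ (i D.a⁻¹ z) - ρ D.a⁻¹ z) := by ring
    rw [e]
    exact R.sub_mem (R.add_mem h3 h4) h2
  have h5 : ∑ k ∈ Finset.range 6, (ga ((i c ^ k) y) + gb ((i D.a)⁻¹ ((i c ^ k) y)) -
      ρ c ((i c ^ k) y)) ∈ R := R.sum_mem fun k _ => h1 _
  rw [Finset.sum_sub_distrib] at h5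
  have h6 := cr_pow hρ c 6 y
  rw [hcT] at h6
  have h7 := cr_inv hρ D.T y
  have h8 := hκ (i D.T⁻¹ y)
  have h9 : κ (i D.T⁻¹ y) = κ y := (Subgroup.inv_mem _ hT) y
  rw [h9] at h8
  have e : (∑ k ∈ Finset.range 6, (ga ((i c ^ k) y) + gb ((i D.a)⁻¹ ((i c ^ k) y)))) +
      (κ y - r + r) =
      (∑ k ∈ Finset.range 6, (ga ((i c ^ k) y) + gb ((i D.a)⁻¹ ((i c ^ k) y))) -
        ∑ k ∈ Finset.range 6, ρ c ((i c ^ k) y)) -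
      (ρ D.T⁻¹ y - ∑ k ∈ Finset.range 6, ρ c ((i c ^ k) y)) +
      (ρ D.T (i D.T⁻¹ y) + ρ D.T⁻¹ y) - (ρ D.T (i D.T⁻¹ y) - κ y) := by ring
  rw [e]
  exact R.sub_mem (R.add_mem (R.sub_mem h5 h6) h7) h8

end side

/-- TWE -/
theorem twe (tab : TabStmt) (aut : AutStmt) (inv : InvStmt) (lft : LftStmt) : TweStmt := by
  intro Γ Y _ _ R D i hTs ρ₁ ρ₂ hρ₁ hρ₂ r₁ r₂ κ₁ κ₂ hr₁ hr₂ hκ₁ hκ₂ ka₁ kb₁ ka₂ kb₂ x₁ x₂ hx₁ hx₂
    xA₁ xB₁ xA₂ xB₂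
  have hxe₁ := x_eq D lft hρ₁ hx₁ xA₁ xB₁
  have hxe₂ := x_eq D lft hρ₂ hx₂ xA₂ xB₂
  have hT₁ := kT D ka₁ kb₁
  have hT₂ := kT D ka₂ kb₂
  have hC : i D.T = i D.C := iT D hTs
  have hiC : ∀ y, (i.comp D.j) lC y = i D.C y := by
    intro y
    rw [MonoidHom.comp_apply, j_C]
  have kC₁ : ∀ y, κ₁ (i D.C y) = κ₁ y := by
    intro y
    rw [← hC]
    exact hT₁ y
  have kC₂ : ∀ y, κ₂ (i D.C y) = κ₂ y := by
    intro y
    rw [← hC]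
    exact hT₂ y
  have hbs : Bs R (i.comp D.j) x₁ x₂ (fun y => κ₁ y - r₁) (fun y => κ₂ y - r₂) := by
    refine ⟨hx₁, hx₂, ?_, ?_, ?_, ?_⟩
    · intro y
      simp only [hiC, kC₁]
    · intro y
      simp only [hiC, kC₂]
    · exact x_C D hTs hρ₁ hr₁ hκ₁ hxe₁
    · exact x_C D hTs hρ₂ hr₂ hκ₂ hxe₂
  refine ⟨hbs, ?_⟩
  intro g₁ g₂ hg₁ hg₂ hg₂C
  have hsa₁ : D.a ∈ stb i κ₁ := ka₁
  have hsb₁ : D.b ∈ stb i κ₁ := kb₁
  have hsa₂ : D.a ∈ stb i κ₂ := ka₂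
  have hsb₂ : D.b ∈ stb i κ₂ := kb₂
  obtain ⟨gb₂, hgb₂C, hgb₂'⟩ := inv Y R (i D.C) (fun y => ρ₂ D.b⁻¹ y)
    (c_gen D hTs hρ₂ hκ₂ D.b hsb₂ (comm_b D))
  have hgb₁' : ∀ y, (fun y => ρ₁ D.b⁻¹ y) y - ρ₁ D.b⁻¹ y ∈ R := by
    intro y
    simp only [sub_self]
    exact R.zero_mem
  have hada : Ad R (i.comp D.j) x₁ x₂ (fun y => κ₁ y - r₁) (fun y => κ₂ y - r₂) pa (i D.a)
      g₁ g₂ := by
    refine ⟨?_, aut.1, ?_, ?_, ?_, ?_, ?_, ?_⟩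
    · intro w y
      rw [MonoidHom.comp_apply, MonoidHom.comp_apply, ← Equiv.Perm.mul_apply, ← map_mul, act_a,
        map_mul, Equiv.Perm.mul_apply]
    · intro y
      simp only [ka₁]
    · intro y
      simp only [ka₂]
    · exact tr_gen D hρ₁ hxe₁ D.a pa (act_a D) g₁ hg₁
    · exact tr_gen D hρ₂ hxe₂ D.a pa (act_a D) g₂ hg₂
    · intro y
      rw [hiC]
      exact c_gen' D hTs hρ₁ hκ₁ D.a hsa₁ (comm_a D) g₁ hg₁ y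
    · intro y
      rw [hiC]
      exact hg₂C y
  have hadb : Ad R (i.comp D.j) x₁ x₂ (fun y => κ₁ y - r₁) (fun y => κ₂ y - r₂) pb (i D.b)
      (fun y => ρ₁ D.b⁻¹ y) gb₂ := by
    refine ⟨?_, aut.2.1, ?_, ?_, ?_, ?_, ?_, ?_⟩
    · intro w y
      rw [MonoidHom.comp_apply, MonoidHom.comp_apply, ← Equiv.Perm.mul_apply, ← map_mul, act_b,
        map_mul, Equiv.Perm.mul_apply]
    · intro y
      simp only [kb₁]
    · intro y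
      simp only [kb₂]
    · exact tr_gen D hρ₁ hxe₁ D.b pb (act_b D) _ hgb₁'
    · exact tr_gen D hρ₂ hxe₂ D.b pb (act_b D) gb₂ hgb₂'
    · intro y
      rw [hiC]
      exact c_gen' D hTs hρ₁ hκ₁ D.b hsb₁ (comm_b D) _ hgb₁' y
    · intro y
      rw [hiC]
      exact hgb₂C y
  have h := tab Y R (i.comp D.j) x₁ x₂ _ _ hbs r₁ r₂ (i D.a) (i D.b) g₁ g₂ _ gb₂ hada hadb
    (by rw [← map_mul, ← map_mul, D.r1, map_mul, map_mul])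
    (by
      rw [← map_mul, ← map_pow]
      change i D.T = (i.comp D.j) lC
      rw [hC, MonoidHom.comp_apply, j_C])
    (braid D hρ₁ g₁ _ hg₁ hgb₁') (braid D hρ₂ g₂ gb₂ hg₂ hgb₂')
    (power D hρ₁ hκ₁ hT₁ g₁ _ hg₁ hgb₁') (power D hρ₂ hκ₂ hT₂ g₂ gb₂ hg₂ hgb₂')
  simp only [sub_add_cancel] at h
  exact h

end Pool.Agent.SOR.H27
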